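import Pool.Agent.L7h16.SV.Fix
import Pool.Agent.Results.MP_746f10_nt.AlmostAllCoefficients

/-!
# Counting the exceptional coefficient vectors of systems of linear forms (helper16)
-/

set_option autoImplicit false

namespace Pool.Agent.L7h16.PT

open Finset Filter
open Pool.Agent.Results.MP_746f10_nt.AlmostAllCoefficients (Holds Admissible exceptions)

variable {k : ℕ}

/-- the vector `(a_1, …, a_k, b_1, …, b_k)` of the coefficients of the forms `a_i x + b_i` -/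
def vec (a b : Fin k → ℕ) : Fin (k + k) → ℤ := Fin.append (fun i => (a i : ℤ)) (fun i => (b i : ℤ))

lemma vec_left (a b : Fin k → ℕ) (i : Fin k) : vec a b (Fin.castAdd k i) = a i := by
  unfold vec
  rw [Fin.append_left]

lemma vec_right (a b : Fin k → ℕ) (i : Fin k) : vec a b (Fin.natAdd k i) = b i := by
  unfold vec
  rw [Fin.append_right]

/-- the system is admissible, and the formula of Hardy and Littlewood fails for the `n ≤ M` -/
def Bad (ε : ℝ) (M : ℕ) (v : Fin (k + k) → ℤ) : Prop :=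
  ∃ a b : Fin k → ℕ, v = vec a b ∧ (∀ i, 1 ≤ b i ∧ b i < a i) ∧ Admissible a b ∧ ¬ Holds ε a b M

/-- the vectors with one entry in a small set -/
lemma card_one (Y : ℕ) (S : Finset ℤ) (j : Fin (k + k)) (hk : 1 ≤ k) :
    #(Fintype.piFinset fun l : Fin (k + k) => if l = j then S else Icc (0 : ℤ) Y) = #S * (Y + 1) ^ (2 * k - 1) := by
  classical
  rw [Fintype.card_piFinset, ← Finset.mul_prod_erase univ _ (mem_univ j)]
  simp only [if_true]
  congr 1
  rw [Finset.prod_congr rfl (g := fun _ => Y + 1) (fun l hl => by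
    rw [if_neg (Finset.ne_of_mem_erase hl)]
    simp), Finset.prod_const, Finset.card_erase_of_mem (mem_univ j), card_univ, Fintype.card_fin]
  congr 1
  omega

open Classical in
/-- **The exceptional coefficient vectors.** -/
theorem count (hk : 1 ≤ k) (ε : ℝ) (hε : 0 < ε) : ∃ (C : ℕ) (κ : ℝ), 0 < κ ∧ ∀ E U B₁ : ℕ, ∃ X₀ : ℕ, ∀ X : ℕ, X₀ ≤ X →
    ∀ M : ℕ, (2 * Real.log X) ^ C ≤ M → (M : ℝ) ≤ (Real.log X / 2) ^ E →
    ({v : Fin (k + k) → ℤ | (∀ j, |v j| ≤ ((B₁ * X : ℕ) : ℤ)) ∧ Bad ε M v}.ncard : ℝ) ≤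
      (X : ℝ) ^ (2 * k) / Real.log X ^ U + ((B₁ + 1 : ℕ) * (X : ℝ)) ^ (2 * k) * (M : ℝ) ^ (-κ) := by
  obtain ⟨C, κ, hκ, hres⟩ := Pool.Agent.Results.MP_746f10_nt.AlmostAllCoefficients.result k hk ε hε
  refine ⟨C, κ, hκ, fun E U B₁ => ?_⟩
  obtain ⟨𝒢, N₀, h1, -, h3, -⟩ := hres (U + 1) 0 E 0
  obtain ⟨B, hB⟩ : ∃ B : ℕ, B = B₁ + 1 := ⟨_, rfl⟩
  have hBr : (1 : ℝ) ≤ B := by rw [hB]; push_cast; linarith [Nat.cast_nonneg (α := ℝ) B₁]
  -- the constant
  obtain ⟨c, hc⟩ : ∃ c : ℝ, c = k * (2 * B) ^ (2 * k) := ⟨_, rfl⟩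
  have hc0 : 0 ≤ c := by rw [hc]; positivity
  have hev : ∀ᶠ X : ℕ in atTop, 2 * c ≤ Real.log X ∧ Real.log B ≤ Real.log X ∧
      2 * c * Real.log X ^ U ≤ Real.sqrt X := by
    have e1 : ∀ᶠ X : ℕ in atTop, max (2 * c) (Real.log B) ≤ Real.log X :=
      (Real.tendsto_log_atTop.comp (tendsto_natCast_atTop_atTop (R := ℝ))).eventually_ge_atTop _
    have h1 := (isLittleO_log_rpow_rpow_atTop (U : ℝ) (s := 1 / 2) (by norm_num)).bound (c := 1 / (2 * c + 1)) (by positivity)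
    have h2 := tendsto_natCast_atTop_atTop (R := ℝ) |>.eventually h1
    filter_upwards [e1, h2, eventually_ge_atTop 3] with X hX hX2 hX3
    have h3 : (0 : ℝ) ≤ Real.log X := Real.log_natCast_nonneg _
    rw [Real.rpow_natCast, Real.norm_of_nonneg (by positivity), Real.norm_of_nonneg (by positivity),
      ← Real.sqrt_eq_rpow, one_div, inv_mul_eq_div, le_div_iff₀ (by positivity)] at hX2
    refine ⟨(le_max_left _ _).trans hX, (le_max_right _ _).trans hX, ?_⟩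
    nlinarith [pow_nonneg h3 U]
  obtain ⟨X₂, hX₂⟩ := eventually_atTop.1 hev
  refine ⟨max (max N₀ X₂) (max ((N₀ + 2) ^ 2) 9), fun X hX M hM1 hM2 => ?_⟩
  have hXN : N₀ ≤ X := ((le_max_left _ _).trans (le_max_left _ _)).trans hX
  obtain ⟨hX1, hX2, hX3⟩ := hX₂ X (((le_max_right _ _).trans (le_max_left _ _)).trans hX)
  have hXN2 : (N₀ + 2) ^ 2 ≤ X := ((le_max_left _ _).trans (le_max_right _ _)).trans hX
  have hX9 : 9 ≤ X := ((le_max_right _ _).trans (le_max_right _ _)).trans hX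
  have hXr : (9 : ℝ) ≤ X := by exact_mod_cast hX9
  have hX0 : (0 : ℝ) < X := by linarith
  have hlog0 : 0 < Real.log X := Real.log_pos (by linarith)
  obtain ⟨Y, hY⟩ : ∃ Y : ℕ, Y = B * X := ⟨_, rfl⟩
  have hXY : X ≤ Y := by rw [hY, hB]; nlinarith
  have hYr : (Y : ℝ) = B * X := by rw [hY]; push_cast; rfl
  have hY0 : (0 : ℝ) < Y := by rw [hYr]; positivity
  have hlogXY : Real.log X ≤ Real.log Y := Real.log_le_log hX0 (by exact_mod_cast hXY)
  have hlogY : Real.log Y ≤ 2 * Real.log X := by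
    rw [hYr, Real.log_mul (by positivity) (by positivity)]
    linarith
  obtain ⟨S, hS⟩ : ∃ S : Finset ℤ, S = ((Icc 1 Y).filter fun n => n ≤ Nat.sqrt X ∨ n ∉ 𝒢).image (fun n : ℕ => (n : ℤ)) :=
    ⟨_, rfl⟩
  -- the three kinds of exceptional vectors
  have hsub : {v : Fin (k + k) → ℤ | (∀ j, |v j| ≤ ((B₁ * X : ℕ) : ℤ)) ∧ Bad ε M v} ⊆
      (((univ : Finset (Fin k)).biUnion (fun i => Fintype.piFinset fun l : Fin (k + k) => if l = Fin.castAdd k i then S else
        Icc (0 : ℤ) Y) ∪ (((Fintype.piFinset fun _ : Fin k => Icc 1 Y).filter fun a => ∀ i, Nat.sqrt X < a i ∧ a i ∈ 𝒢).biUnion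
        fun a => ((Fintype.piFinset fun i => Ico 1 (a i)).filter (fun b => ¬ Holds ε a b M)).image (vec a)) :
          Finset (Fin (k + k) → ℤ)) : Set (Fin (k + k) → ℤ)) := by
    rintro v ⟨hv, a, b, rfl, hab, -, hH⟩
    have ha : ∀ i, a i ≤ Y := by
      intro i
      have h4 := hv (Fin.castAdd k i)
      rw [vec_left, Nat.abs_cast] at h4
      have h5 : a i ≤ B₁ * X := by exact_mod_cast h4
      refine h5.trans ?_
      rw [hY, hB]
      exact Nat.mul_le_mul_right _ (by omega)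
    rw [Finset.mem_coe, Finset.mem_union]
    by_cases hc : ∀ i, Nat.sqrt X < a i ∧ a i ∈ 𝒢
    · right
      rw [mem_biUnion]
      refine ⟨a, ?_, ?_⟩
      · rw [mem_filter, Fintype.mem_piFinset]
        exact ⟨fun i => mem_Icc.2 ⟨by have := hab i; omega, ha i⟩, hc⟩
      · rw [mem_image]
        refine ⟨b, ?_, rfl⟩
        rw [mem_filter, Fintype.mem_piFinset]
        exact ⟨fun i => mem_Ico.2 ⟨(hab i).1, (hab i).2⟩, hH⟩
    · left
      push Not at hc
      obtain ⟨i, hi⟩ := hc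
      rw [mem_biUnion]
      refine ⟨i, mem_univ _, ?_⟩
      rw [Fintype.mem_piFinset]
      intro l
      split_ifs with hl
      · rw [hl, vec_left, hS, mem_image]
        refine ⟨a i, ?_, rfl⟩
        rw [mem_filter, mem_Icc]
        refine ⟨⟨by have := hab i; omega, ha i⟩, ?_⟩
        by_cases h4 : a i ≤ Nat.sqrt X
        · exact Or.inl h4
        · exact Or.inr (hi (by omega))
      · refine Fin.addCases (fun i => ?_) (fun i => ?_) l
        · rw [vec_left, mem_Icc]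
          exact ⟨by positivity, by exact_mod_cast ha i⟩
        · rw [vec_right, mem_Icc]
          exact ⟨by positivity, by exact_mod_cast ((hab i).2.le.trans (ha i))⟩
  have h4 := Set.ncard_le_ncard hsub (Finset.finite_toSet _)
  rw [Set.ncard_coe_finset] at h4
  have h5 := h4.trans (card_union_le _ _)
  -- the first kind
  have hSc : (#S : ℝ) ≤ Real.sqrt X + Y / Real.log X ^ (U + 1) := by
    have h6 : #S ≤ Nat.sqrt X + #((Icc 1 Y).filter fun n => n ∉ 𝒢) := by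
      rw [hS]
      refine card_image_le.trans ?_
      rw [filter_or]
      refine (card_union_le _ _).trans (Nat.add_le_add ?_ le_rfl)
      have h7 : (Icc 1 Y).filter (fun n => n ≤ Nat.sqrt X) ⊆ Icc 1 (Nat.sqrt X) := by
        intro n hn
        rw [mem_filter, mem_Icc] at hn
        exact mem_Icc.2 ⟨hn.1.1, hn.2⟩
      refine (card_le_card h7).trans ?_
      rw [Nat.card_Icc]
      omega
    have h7 := h1 Y (hXN.trans hXY)
    have h8 : (Y : ℝ) / Real.log Y ^ (U + 1) ≤ Y / Real.log X ^ (U + 1) := by gcongr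
    have h9 : ((Nat.sqrt X : ℕ) : ℝ) ≤ Real.sqrt X := Real.nat_sqrt_le_real_sqrt
    have h10 : (#S : ℝ) ≤ (Nat.sqrt X : ℕ) + (#((Icc 1 Y).filter fun n => n ∉ 𝒢) : ℝ) := by exact_mod_cast h6
    linarith
  have hfirst : (#((univ : Finset (Fin k)).biUnion (fun i => Fintype.piFinset fun l : Fin (k + k) =>
      if l = Fin.castAdd k i then S else Icc (0 : ℤ) Y)) : ℝ) ≤ (X : ℝ) ^ (2 * k) / Real.log X ^ U := by
    have h6 : #((univ : Finset (Fin k)).biUnion (fun i => Fintype.piFinset fun l : Fin (k + k) =>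
      if l = Fin.castAdd k i then S else Icc (0 : ℤ) Y)) ≤ k * (#S * (Y + 1) ^ (2 * k - 1)) := by
      refine card_biUnion_le.trans ?_
      rw [Finset.sum_congr rfl (fun i _ => card_one Y S (Fin.castAdd k i) hk), Finset.sum_const, card_univ, Fintype.card_fin,
        smul_eq_mul]
    have h7 : ((k * (#S * (Y + 1) ^ (2 * k - 1)) : ℕ) : ℝ) ≤ k * ((Real.sqrt X + Y / Real.log X ^ (U + 1)) *
        (2 * Y) ^ (2 * k - 1)) := by
      push_cast
      have hY1 : (1 : ℝ) ≤ Y := by exact_mod_cast (by omega : 1 ≤ Y)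
      gcongr
      linarith
    have h8 : (k : ℝ) * ((Real.sqrt X + Y / Real.log X ^ (U + 1)) * (2 * Y) ^ (2 * k - 1)) ≤
        c * (Real.sqrt X * (X : ℝ) ^ (2 * k - 1)) + c * ((X : ℝ) ^ (2 * k) / Real.log X ^ (U + 1)) := by
      have e1 : (2 * (Y : ℝ)) ^ (2 * k - 1) = (2 * B) ^ (2 * k - 1) * (X : ℝ) ^ (2 * k - 1) := by
        rw [hYr, ← mul_pow]; ring_nf
      have e2 : (2 * (B : ℝ)) ^ (2 * k) = (2 * B) ^ (2 * k - 1) * (2 * B) := by
        rw [← pow_succ]; congr 1; omega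
      have e3 : (X : ℝ) ^ (2 * k) = (X : ℝ) ^ (2 * k - 1) * X := by
        rw [← pow_succ]; congr 1; omega
      rw [e1, hc, e2, e3, hYr]
      have p1 : (0 : ℝ) ≤ (2 * (B : ℝ)) ^ (2 * k - 1) := by positivity
      have p2 : (0 : ℝ) ≤ (X : ℝ) ^ (2 * k - 1) := by positivity
      have p3 : (0 : ℝ) ≤ Real.sqrt X := Real.sqrt_nonneg _
      have p4 : (0 : ℝ) ≤ (k : ℝ) := Nat.cast_nonneg _
      have q1 : (k : ℝ) * (Real.sqrt X * ((2 * (B : ℝ)) ^ (2 * k - 1) * (X : ℝ) ^ (2 * k - 1))) ≤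
          (k : ℝ) * (Real.sqrt X * ((2 * (B : ℝ)) ^ (2 * k - 1) * (X : ℝ) ^ (2 * k - 1))) * (2 * B) := by
        refine le_mul_of_one_le_right (by positivity) (by linarith)
      have q2 : (k : ℝ) * ((B : ℝ) * X / Real.log X ^ (U + 1) * ((2 * (B : ℝ)) ^ (2 * k - 1) * (X : ℝ) ^ (2 * k - 1))) ≤
          (k : ℝ) * ((B : ℝ) * X / Real.log X ^ (U + 1) * ((2 * (B : ℝ)) ^ (2 * k - 1) * (X : ℝ) ^ (2 * k - 1))) * 2 := by
        refine le_mul_of_one_le_right (by positivity) (by norm_num)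
      calc (k : ℝ) * ((Real.sqrt X + (B : ℝ) * X / Real.log X ^ (U + 1)) * ((2 * (B : ℝ)) ^ (2 * k - 1) * (X : ℝ) ^ (2 * k - 1)))
          = (k : ℝ) * (Real.sqrt X * ((2 * (B : ℝ)) ^ (2 * k - 1) * (X : ℝ) ^ (2 * k - 1))) +
            (k : ℝ) * ((B : ℝ) * X / Real.log X ^ (U + 1) * ((2 * (B : ℝ)) ^ (2 * k - 1) * (X : ℝ) ^ (2 * k - 1))) := by ring
        _ ≤ (k : ℝ) * (Real.sqrt X * ((2 * (B : ℝ)) ^ (2 * k - 1) * (X : ℝ) ^ (2 * k - 1))) * (2 * B) +
            (k : ℝ) * ((B : ℝ) * X / Real.log X ^ (U + 1) * ((2 * (B : ℝ)) ^ (2 * k - 1) * (X : ℝ) ^ (2 * k - 1))) * 2 := by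
            linarith
        _ = _ := by ring
    have h9 : c * (Real.sqrt X * (X : ℝ) ^ (2 * k - 1)) ≤ (X : ℝ) ^ (2 * k) / Real.log X ^ U / 2 := by
      rw [le_div_iff₀ (by norm_num), le_div_iff₀ (by positivity)]
      have e3 : (X : ℝ) ^ (2 * k) = (X : ℝ) ^ (2 * k - 1) * (Real.sqrt X * Real.sqrt X) := by
        rw [Real.mul_self_sqrt hX0.le, ← pow_succ]; congr 1; omega
      rw [e3]
      have p2 : (0 : ℝ) ≤ (X : ℝ) ^ (2 * k - 1) := by positivity
      have p3 : (0 : ℝ) ≤ Real.sqrt X := Real.sqrt_nonneg _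
      calc c * (Real.sqrt X * (X : ℝ) ^ (2 * k - 1)) * 2 * Real.log X ^ U
          = ((X : ℝ) ^ (2 * k - 1) * Real.sqrt X) * (2 * c * Real.log X ^ U) := by ring
        _ ≤ ((X : ℝ) ^ (2 * k - 1) * Real.sqrt X) * Real.sqrt X := by gcongr
        _ = _ := by ring
    have h10 : c * ((X : ℝ) ^ (2 * k) / Real.log X ^ (U + 1)) ≤ (X : ℝ) ^ (2 * k) / Real.log X ^ U / 2 := by
      rw [pow_succ, le_div_iff₀ (by norm_num), ← mul_div_assoc, div_mul_eq_mul_div, div_le_div_iff₀ (by positivity) (by positivity)]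
      calc c * (X : ℝ) ^ (2 * k) * 2 * Real.log X ^ U = ((X : ℝ) ^ (2 * k) * Real.log X ^ U) * (2 * c) := by ring
        _ ≤ ((X : ℝ) ^ (2 * k) * Real.log X ^ U) * Real.log X := by gcongr
        _ = _ := by ring
    have h11 : (#((univ : Finset (Fin k)).biUnion (fun i => Fintype.piFinset fun l : Fin (k + k) =>
      if l = Fin.castAdd k i then S else Icc (0 : ℤ) Y)) : ℝ) ≤ ((k * (#S * (Y + 1) ^ (2 * k - 1)) : ℕ) : ℝ) := by
      exact_mod_cast h6
    linarith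
  -- the second kind
  have hlogs : ∀ a : ℕ, Nat.sqrt X < a → a ≤ Y → Real.log a ^ C ≤ M ∧ (M : ℝ) ≤ Real.log a ^ E := by
    intro a ha1 ha2
    have h6 : X < a * a := Nat.sqrt_lt.1 ha1
    have ha0 : (0 : ℝ) < a := by exact_mod_cast (by omega : 0 < a)
    have h7 : Real.log X ≤ 2 * Real.log a := by
      have e1 : Real.log X ≤ Real.log ((a : ℝ) * a) := Real.log_le_log hX0 (by exact_mod_cast h6.le)
      rw [Real.log_mul ha0.ne' ha0.ne'] at e1
      linarith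
    have h8 : Real.log a ≤ 2 * Real.log X := (Real.log_le_log ha0 (by exact_mod_cast ha2)).trans hlogY
    have h9 : 0 ≤ Real.log a := by linarith
    refine ⟨(pow_le_pow_left₀ h9 h8 C).trans hM1, hM2.trans ?_⟩
    exact pow_le_pow_left₀ (by positivity) (by linarith) E
  have hsecond : (#(((Fintype.piFinset fun _ : Fin k => Icc 1 Y).filter fun a => ∀ i, Nat.sqrt X < a i ∧ a i ∈ 𝒢).biUnion
        fun a => ((Fintype.piFinset fun i => Ico 1 (a i)).filter (fun b => ¬ Holds ε a b M)).image (vec a)) : ℝ) ≤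
      ((B₁ + 1 : ℕ) * (X : ℝ)) ^ (2 * k) * (M : ℝ) ^ (-κ) := by
    have h6 : #(((Fintype.piFinset fun _ : Fin k => Icc 1 Y).filter fun a => ∀ i, Nat.sqrt X < a i ∧ a i ∈ 𝒢).biUnion
        fun a => ((Fintype.piFinset fun i => Ico 1 (a i)).filter (fun b => ¬ Holds ε a b M)).image (vec a)) ≤
        ∑ a ∈ (Fintype.piFinset fun _ : Fin k => Icc 1 Y).filter fun a => ∀ i, Nat.sqrt X < a i ∧ a i ∈ 𝒢,
          exceptions ε a M := by
      refine card_biUnion_le.trans (Finset.sum_le_sum fun a _ => ?_)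
      refine card_image_le.trans (le_of_eq ?_)
      unfold exceptions
      congr!
    have h7 : ∀ a ∈ (Fintype.piFinset fun _ : Fin k => Icc 1 Y).filter fun a => ∀ i, Nat.sqrt X < a i ∧ a i ∈ 𝒢,
        (exceptions ε a M : ℝ) ≤ (M : ℝ) ^ (-κ) * (Y : ℝ) ^ k := by
      intro a ha
      rw [mem_filter, Fintype.mem_piFinset] at ha
      have h8 := h3 a (fun i => ⟨(ha.2 i).2, by
        have e1 := (ha.2 i).1
        have e2 : N₀ + 2 ≤ Nat.sqrt X := by
          rw [Nat.le_sqrt, ← sq]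
          exact hXN2
        omega⟩) M (fun i => hlogs (a i) (ha.2 i).1 (mem_Icc.1 (ha.1 i)).2)
      refine h8.trans ?_
      gcongr
      calc ∏ i, (a i : ℝ) ≤ ∏ _i : Fin k, (Y : ℝ) :=
            Finset.prod_le_prod (fun i _ => by positivity) fun i _ => by exact_mod_cast (mem_Icc.1 (ha.1 i)).2
        _ = (Y : ℝ) ^ k := by simp
    have h8 : (#((Fintype.piFinset fun _ : Fin k => Icc 1 Y).filter fun a => ∀ i, Nat.sqrt X < a i ∧ a i ∈ 𝒢) : ℝ) ≤
        (Y : ℝ) ^ k := by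
      have e1 := card_filter_le (Fintype.piFinset fun _ : Fin k => Icc 1 Y) (fun a => ∀ i, Nat.sqrt X < a i ∧ a i ∈ 𝒢)
      rw [Fintype.card_piFinset] at e1
      simp only [Nat.card_Icc, Nat.add_sub_cancel, prod_const, card_univ, Fintype.card_fin] at e1
      exact_mod_cast e1
    have hMκ : (0 : ℝ) ≤ (M : ℝ) ^ (-κ) := by positivity
    calc (#(((Fintype.piFinset fun _ : Fin k => Icc 1 Y).filter fun a => ∀ i, Nat.sqrt X < a i ∧ a i ∈ 𝒢).biUnion
        fun a => ((Fintype.piFinset fun i => Ico 1 (a i)).filter (fun b => ¬ Holds ε a b M)).image (vec a)) : ℝ)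
        ≤ ∑ a ∈ (Fintype.piFinset fun _ : Fin k => Icc 1 Y).filter fun a => ∀ i, Nat.sqrt X < a i ∧ a i ∈ 𝒢,
          (exceptions ε a M : ℝ) := by exact_mod_cast h6
      _ ≤ ∑ _a ∈ (Fintype.piFinset fun _ : Fin k => Icc 1 Y).filter fun a => ∀ i, Nat.sqrt X < a i ∧ a i ∈ 𝒢,
          (M : ℝ) ^ (-κ) * (Y : ℝ) ^ k := Finset.sum_le_sum h7
      _ = (#((Fintype.piFinset fun _ : Fin k => Icc 1 Y).filter fun a => ∀ i, Nat.sqrt X < a i ∧ a i ∈ 𝒢) : ℝ) *
          ((M : ℝ) ^ (-κ) * (Y : ℝ) ^ k) := by rw [Finset.sum_const, nsmul_eq_mul]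
      _ ≤ (Y : ℝ) ^ k * ((M : ℝ) ^ (-κ) * (Y : ℝ) ^ k) := by gcongr
      _ = ((B₁ + 1 : ℕ) * (X : ℝ)) ^ (2 * k) * (M : ℝ) ^ (-κ) := by
          rw [hYr, hB, two_mul, pow_add]
          ring
  calc ({v : Fin (k + k) → ℤ | (∀ j, |v j| ≤ ((B₁ * X : ℕ) : ℤ)) ∧ Bad ε M v}.ncard : ℝ)
      ≤ (#((univ : Finset (Fin k)).biUnion (fun i => Fintype.piFinset fun l : Fin (k + k) =>
      if l = Fin.castAdd k i then S else Icc (0 : ℤ) Y)) : ℝ) +
      (#(((Fintype.piFinset fun _ : Fin k => Icc 1 Y).filter fun a => ∀ i, Nat.sqrt X < a i ∧ a i ∈ 𝒢).biUnion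
        fun a => ((Fintype.piFinset fun i => Ico 1 (a i)).filter (fun b => ¬ Holds ε a b M)).image (vec a)) : ℝ) := by
        exact_mod_cast h5
    _ ≤ _ := add_le_add hfirst hsecond

end Pool.Agent.L7h16.PT
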