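import Pool.Agent.L7h16.PT.Count
import Pool.Agent.L7h16.SV.FixD
import Pool.Agent.L7h16.SV.Conv

/-!
# The exceptional systems of linear forms are sparse (helper16)
-/

set_option autoImplicit false

namespace Pool.Agent.L7h16.PT

open Finset Filter
open Pool.Agent.L7h16.SV (SparseW)
open Pool.Agent.Results.MP_746f10_nt.AlmostAllCoefficients (Holds Admissible sing)

variable {k : ℕ}

lemma log_bounds {X : ℕ} (hX : 16 ≤ X) : Real.log X ≤ Nat.log 2 X ∧ (Nat.log 2 X : ℝ) + 1 ≤ 3 * Real.log X := by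
  have hX0 : (16 : ℝ) ≤ X := by exact_mod_cast hX
  have h2a := Real.log_two_gt_d9
  have h2b := Real.log_two_lt_d9
  have h16 : 4 * Real.log 2 ≤ Real.log X := by
    have : Real.log ((2 : ℝ) ^ 4) ≤ Real.log X := Real.log_le_log (by norm_num) (by norm_num; linarith)
    rw [Real.log_pow] at this
    exact_mod_cast this
  have h1 : Real.log X ≤ ((Nat.log 2 X : ℝ) + 1) * Real.log 2 := by
    have h3 : X < 2 ^ (Nat.log 2 X + 1) := Nat.lt_pow_succ_log_self (by norm_num) X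
    have h4 : Real.log X ≤ Real.log ((2 : ℝ) ^ (Nat.log 2 X + 1)) :=
      Real.log_le_log (by linarith) (by exact_mod_cast h3.le)
    rw [Real.log_pow] at h4
    push_cast at h4
    exact h4
  have h2 : (Nat.log 2 X : ℝ) * Real.log 2 ≤ Real.log X := by
    have h3 : 2 ^ Nat.log 2 X ≤ X := Nat.pow_log_le_self 2 (by omega)
    have h4 : Real.log ((2 : ℝ) ^ Nat.log 2 X) ≤ Real.log X := Real.log_le_log (by positivity) (by exact_mod_cast h3)
    rwa [Real.log_pow] at h4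
  have h0 : (0 : ℝ) ≤ Nat.log 2 X := Nat.cast_nonneg _
  constructor
  · by_contra hcon
    push Not at hcon
    nlinarith
  · nlinarith

/-- the count with a logarithmic saving -/
theorem cnt1 (hk : 1 ≤ k) (ε : ℝ) (hε : 0 < ε) : ∃ (C : ℕ) (κ : ℝ), 0 < κ ∧ ∀ E W B₁ : ℕ, C + 1 ≤ E → (W : ℝ) + 1 ≤ κ * E →
    ∃ X₀ : ℕ, 16 ≤ X₀ ∧ ∀ X : ℕ, X₀ ≤ X → ∀ M : ℕ, Real.log X ^ E ≤ M → (M : ℝ) ≤ (3 * Real.log X) ^ E →
    ({v : Fin (k + k) → ℤ | (∀ j, |v j| ≤ ((B₁ * X : ℕ) : ℤ)) ∧ Bad ε M v}.ncard : ℝ) ≤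
      (X : ℝ) ^ (2 * k) / Real.log X ^ W / 2 := by
  obtain ⟨C, κ, hκ, h⟩ := count hk ε hε
  refine ⟨C, κ, hκ, fun E W B₁ hCE hWE => ?_⟩
  obtain ⟨X₁, hX₁⟩ := h (E + 1) (W + 1) B₁
  have hev : ∀ᶠ X : ℕ in atTop, max ((2 : ℝ) ^ C) (max (6 ^ (E + 1)) (2 * (1 + ((B₁ + 1 : ℕ) : ℝ) ^ (2 * k)))) ≤ Real.log X :=
    (Real.tendsto_log_atTop.comp (tendsto_natCast_atTop_atTop (R := ℝ))).eventually_ge_atTop _
  obtain ⟨X₂, hX₂⟩ := eventually_atTop.1 hev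
  refine ⟨max (max X₁ X₂) 16, le_max_right _ _, fun X hX M hM1 hM2 => ?_⟩
  have h1 := hX₂ X (((le_max_right _ _).trans (le_max_left _ _)).trans hX)
  have l1 : (2 : ℝ) ^ C ≤ Real.log X := (le_max_left _ _).trans h1
  have l2 : (6 : ℝ) ^ (E + 1) ≤ Real.log X := ((le_max_left _ _).trans (le_max_right _ _)).trans h1
  have l3 : 2 * (1 + ((B₁ + 1 : ℕ) : ℝ) ^ (2 * k)) ≤ Real.log X := ((le_max_right _ _).trans (le_max_right _ _)).trans h1
  have hL1 : 1 ≤ Real.log X := by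
    have : (1 : ℝ) ≤ 2 ^ C := one_le_pow₀ (by norm_num)
    linarith
  have hL0 : 0 < Real.log X := by linarith
  have hX16 : 16 ≤ X := (le_max_right _ _).trans hX
  have hX0 : (0 : ℝ) < X := by exact_mod_cast (by omega : 0 < X)
  have h2 := hX₁ X (((le_max_left _ _).trans (le_max_left _ _)).trans hX) M (by
    refine le_trans ?_ hM1
    calc (2 * Real.log X) ^ C = 2 ^ C * Real.log X ^ C := mul_pow _ _ _
      _ ≤ Real.log X * Real.log X ^ C := by gcongr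
      _ = Real.log X ^ (C + 1) := (pow_succ' _ _).symm
      _ ≤ Real.log X ^ E := pow_le_pow_right₀ hL1 hCE) (by
    refine hM2.trans ?_
    rw [div_pow, le_div_iff₀ (by positivity), mul_pow]
    calc (3 : ℝ) ^ E * Real.log X ^ E * 2 ^ (E + 1) ≤ (3 : ℝ) ^ (E + 1) * Real.log X ^ E * 2 ^ (E + 1) := by
          gcongr
          · norm_num
          · omega
      _ = 6 ^ (E + 1) * Real.log X ^ E := by
          rw [show (6 : ℝ) = 3 * 2 by norm_num, mul_pow]; ring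
      _ ≤ Real.log X * Real.log X ^ E := by gcongr
      _ = Real.log X ^ (E + 1) := (pow_succ' _ _).symm)
  have hMκ : (M : ℝ) ^ (-κ) ≤ 1 / Real.log X ^ (W + 1) := by
    have e1 : (M : ℝ) ^ (-κ) ≤ (Real.log X ^ E) ^ (-κ) :=
      Real.rpow_le_rpow_of_nonpos (by positivity) hM1 (by linarith)
    refine e1.trans ?_
    rw [← Real.rpow_natCast, ← Real.rpow_mul hL0.le, one_div, ← Real.rpow_natCast, ← Real.rpow_neg hL0.le]
    refine Real.rpow_le_rpow_of_exponent_le hL1 ?_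
    push_cast
    linarith
  refine h2.trans ?_
  calc (X : ℝ) ^ (2 * k) / Real.log X ^ (W + 1) + ((B₁ + 1 : ℕ) * (X : ℝ)) ^ (2 * k) * (M : ℝ) ^ (-κ)
      ≤ (X : ℝ) ^ (2 * k) / Real.log X ^ (W + 1) + ((B₁ + 1 : ℕ) * (X : ℝ)) ^ (2 * k) * (1 / Real.log X ^ (W + 1)) := by
        gcongr
    _ = (1 + ((B₁ + 1 : ℕ) : ℝ) ^ (2 * k)) * (X : ℝ) ^ (2 * k) / Real.log X ^ (W + 1) := by
        rw [mul_pow]; ring
    _ ≤ (Real.log X / 2) * (X : ℝ) ^ (2 * k) / Real.log X ^ (W + 1) := by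
        gcongr
        linarith
    _ = _ := by
        rw [pow_succ]
        field_simp

/-- the bound `M` for the variable `n`, as a function of the scale -/
def len (E X : ℕ) : ℕ := Nat.log 2 X ^ E

lemma len_bounds {X : ℕ} (hX : 16 ≤ X) (E : ℕ) : Real.log X ^ E ≤ len E X ∧ (len E X : ℝ) ≤ (3 * Real.log X) ^ E := by
  obtain ⟨h1, h2⟩ := log_bounds hX
  have h0 : 0 ≤ Real.log X := Real.log_natCast_nonneg _
  unfold len
  push_cast
  exact ⟨pow_le_pow_left₀ h0 h1 E, pow_le_pow_left₀ (Nat.cast_nonneg _) (by linarith) E⟩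

/-- the constants -/
theorem main (hk : 1 ≤ k) (ε : ℝ) (hε : 0 < ε) : ∃ C : ℕ, 1 ≤ C ∧ ∀ E W : ℕ, (C : ℝ) * (W + 1) ≤ E →
    SparseW (fun _ : Fin (k + k) => 1) W (fun X v => Bad ε (len E X) v) ∧
    ∀ B₁ : ℕ, ∃ X₀ : ℕ, ∀ X : ℕ, X₀ ≤ X → ({v : Fin (k + k) → ℤ | (∀ j, |v j| ≤ ((B₁ * X ^ 1 : ℕ) : ℤ)) ∧
      ∃ X' : ℕ, X ≤ X' ∧ X' < 2 * X ∧ Bad ε (len E X') v}.ncard : ℝ) ≤ (X : ℝ) ^ (2 * k) / Real.log X ^ W := by
  obtain ⟨C, κ, hκ, h⟩ := cnt1 hk ε hε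
  obtain ⟨D, hD⟩ := exists_nat_ge (1 / κ)
  refine ⟨max (C + 1) D, (by omega : 1 ≤ C + 1).trans (le_max_left _ _), fun E W hE => ?_⟩
  have hW0 : (0 : ℝ) ≤ W := Nat.cast_nonneg _
  have hm0 : (0 : ℝ) ≤ ((max (C + 1) D : ℕ) : ℝ) := Nat.cast_nonneg _
  have hCE : C + 1 ≤ E := by
    have h1 : ((C + 1 : ℕ) : ℝ) ≤ ((max (C + 1) D : ℕ) : ℝ) := by exact_mod_cast le_max_left _ _
    have h2 : ((C + 1 : ℕ) : ℝ) ≤ E := by nlinarith
    exact_mod_cast h2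
  have hWE : (W : ℝ) + 1 ≤ κ * E := by
    have h1 : (D : ℝ) ≤ ((max (C + 1) D : ℕ) : ℝ) := by exact_mod_cast le_max_right _ _
    have h2 : 1 ≤ κ * D := by
      rw [div_le_iff₀ hκ] at hD
      linarith
    calc (W : ℝ) + 1 ≤ (κ * D) * (W + 1) := by nlinarith
      _ = κ * (D * (W + 1)) := by ring
      _ ≤ κ * ((max (C + 1) D : ℕ) * (W + 1)) := by gcongr
      _ ≤ κ * E := by gcongr
  refine ⟨fun B => ?_, fun B₁ => ?_⟩
  · obtain ⟨X₀, h16, hX⟩ := h E W B hCE hWE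
    refine ⟨X₀, fun X h1 => ?_⟩
    obtain ⟨h2, h3⟩ := len_bounds (h16.trans h1) E
    have h4 := hX X h1 (len E X) h2 h3
    have e1 : ∑ _j : Fin (k + k), 1 = 2 * k := by simp [two_mul]
    rw [e1]
    simp only [pow_one]
    have hl : 0 ≤ (X : ℝ) ^ (2 * k) / Real.log X ^ W := by
      have := Real.log_natCast_nonneg X
      positivity
    linarith
  · obtain ⟨X₀, h16, hX⟩ := h E W B₁ hCE hWE
    refine ⟨X₀, fun X h1 => ?_⟩
    have hX16 : 16 ≤ X := h16.trans h1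
    obtain ⟨g1, g2⟩ := log_bounds hX16
    have hl0 : 0 ≤ Real.log X := Real.log_natCast_nonneg _
    have e1 : Real.log X ^ E ≤ ((Nat.log 2 X ^ E : ℕ) : ℝ) := by push_cast; exact pow_le_pow_left₀ hl0 g1 E
    have e2 : ((Nat.log 2 X ^ E : ℕ) : ℝ) ≤ (3 * Real.log X) ^ E := by
      push_cast; exact pow_le_pow_left₀ (Nat.cast_nonneg _) (by linarith) E
    have e3 : Real.log X ^ E ≤ (((Nat.log 2 X + 1) ^ E : ℕ) : ℝ) := by
      push_cast; exact pow_le_pow_left₀ hl0 (by linarith) E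
    have e4 : (((Nat.log 2 X + 1) ^ E : ℕ) : ℝ) ≤ (3 * Real.log X) ^ E := by
      push_cast; exact pow_le_pow_left₀ (by positivity) g2 E
    have h2 := hX X h1 _ e1 e2
    have h3 := hX X h1 _ e3 e4
    have hf : ∀ M : ℕ, {v : Fin (k + k) → ℤ | (∀ j, |v j| ≤ ((B₁ * X : ℕ) : ℤ)) ∧ Bad ε M v}.Finite := by
      intro M
      refine (Finset.finite_toSet (Fintype.piFinset fun _ : Fin (k + k) => Icc (-((B₁ * X : ℕ) : ℤ)) ((B₁ * X : ℕ) : ℤ))).subset ?_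
      rintro v ⟨hv, -⟩
      rw [Finset.mem_coe, Fintype.mem_piFinset]
      exact fun j => mem_Icc.2 (abs_le.1 (hv j))
    have hsub : {v : Fin (k + k) → ℤ | (∀ j, |v j| ≤ ((B₁ * X ^ 1 : ℕ) : ℤ)) ∧
        ∃ X' : ℕ, X ≤ X' ∧ X' < 2 * X ∧ Bad ε (len E X') v} ⊆
        {v : Fin (k + k) → ℤ | (∀ j, |v j| ≤ ((B₁ * X : ℕ) : ℤ)) ∧ Bad ε (Nat.log 2 X ^ E) v} ∪
        {v : Fin (k + k) → ℤ | (∀ j, |v j| ≤ ((B₁ * X : ℕ) : ℤ)) ∧ Bad ε ((Nat.log 2 X + 1) ^ E) v} := by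
      rintro v ⟨hv, X', h5, h6, h7⟩
      rw [pow_one] at hv
      have h8 : Nat.log 2 X ≤ Nat.log 2 X' := Nat.log_mono_right h5
      have h9 : Nat.log 2 X' < Nat.log 2 X + 2 := by
        refine Nat.log_lt_of_lt_pow (by omega) (h6.trans_le ?_)
        have := Nat.lt_pow_succ_log_self (b := 2) (by norm_num) X
        rw [pow_succ, mul_comm]
        omega
      rcases (by omega : Nat.log 2 X' = Nat.log 2 X ∨ Nat.log 2 X' = Nat.log 2 X + 1) with h10 | h10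
      · left
        refine ⟨hv, ?_⟩
        rw [← h10]
        exact h7
      · right
        refine ⟨hv, ?_⟩
        rw [← h10]
        exact h7
    have h4 := (Set.ncard_le_ncard hsub ((hf _).union (hf _))).trans (Set.ncard_union_le _ _)
    have h5 : (({v : Fin (k + k) → ℤ | (∀ j, |v j| ≤ ((B₁ * X ^ 1 : ℕ) : ℤ)) ∧
        ∃ X' : ℕ, X ≤ X' ∧ X' < 2 * X ∧ Bad ε (len E X') v}.ncard : ℕ) : ℝ) ≤
        (({v : Fin (k + k) → ℤ | (∀ j, |v j| ≤ ((B₁ * X : ℕ) : ℤ)) ∧ Bad ε (Nat.log 2 X ^ E) v}.ncard +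
        {v : Fin (k + k) → ℤ | (∀ j, |v j| ≤ ((B₁ * X : ℕ) : ℤ)) ∧ Bad ε ((Nat.log 2 X + 1) ^ E) v}.ncard : ℕ) : ℝ) := by
      exact_mod_cast h4
    rw [Nat.cast_add] at h5
    refine h5.trans ((add_le_add h2 h3).trans (le_of_eq ?_))
    ring

/-- the formula implies the existence of prime values -/
lemma exists_prime (hk : 1 ≤ k) {ε : ℝ} (hε1 : ε < 1) {a b : Fin k → ℕ} {M : ℕ} (hM : 1 ≤ M) (hab : ∀ i, 1 ≤ b i ∧ b i < a i)
    (hadm : Admissible a b) (h : Holds ε a b M) : ∃ n : ℕ, 1 ≤ n ∧ n ≤ M ∧ ∀ i, (a i * n + b i).Prime := by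
  obtain ⟨C, κ, hκ, hres⟩ := Pool.Agent.Results.MP_746f10_nt.AlmostAllCoefficients.result k hk 1 one_pos
  obtain ⟨-, -, -, -, -, h4⟩ := hres 0 0 0 0
  have h5 := h4 a b hadm M
  have h6 := h M le_rfl
  have hs : 0 < sing a b M := lt_of_lt_of_le (by positivity) h5
  have hlog : 0 < ∏ i, Real.log (a i) := prod_pos fun i _ => Real.log_pos (by
    have := hab i
    exact_mod_cast (by omega : 1 < a i))
  have hM0 : (0 : ℝ) < M := by exact_mod_cast (by omega : 0 < M)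
  have h7 : 0 < sing a b M * (M / ∏ i, Real.log (a i)) := by positivity
  have h8 := (abs_le.1 h6).1
  have h9 : (0 : ℝ) < (Pool.Agent.Results.MP_746f10_nt.AlmostAllCoefficients.count a b M : ℝ) := by nlinarith
  have h10 : 0 < Pool.Agent.Results.MP_746f10_nt.AlmostAllCoefficients.count a b M := by exact_mod_cast h9
  unfold Pool.Agent.Results.MP_746f10_nt.AlmostAllCoefficients.count at h10
  obtain ⟨n, hn⟩ := Finset.card_pos.1 h10
  rw [mem_filter, mem_Icc] at hn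
  exact ⟨n, hn.1.1, hn.1.2, hn.2⟩

end Pool.Agent.L7h16.PT
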